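import Mathlib

/-!
The arithmetic part: the Lucas-type sequence `b` with `b (n+2) = b (n+1) - 2 b n`, the running
maximum `R`, and the existence of infinitely many values of `R` taken on long windows.
-/

namespace H923R2.DegNT

/-- `b` is the Lucas sequence of `t^2 - t + 2`. -/
def b : ℕ → ℤ
  | 0 => 0
  | 1 => 1
  | (n + 2) => b (n + 1) - 2 * b n

theorem b_add_two (n : ℕ) : b (n + 2) = b (n + 1) - 2 * b n := rfl

theorem b_norm (n : ℕ) : b (n + 1) ^ 2 - b (n + 1) * b n + 2 * b n ^ 2 = 2 ^ n := by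
  induction n with
  | zero => simp [b]
  | succ n ih =>
    rw [b_add_two, pow_succ (2 : ℤ) n, ← ih]
    ring

theorem b_odd (n : ℕ) : b (n + 1) % 2 = 1 := by
  induction n with
  | zero => simp [b]
  | succ n ih =>
    rw [b_add_two]
    omega

theorem b_ne_zero (n : ℕ) (hn : 1 ≤ n) : b n ≠ 0 := by
  obtain ⟨m, rfl⟩ : ∃ m, n = m + 1 := ⟨n - 1, by omega⟩
  have := b_odd m
  omega

theorem b_add (j d : ℕ) : b (j + d + 1) = b (j + 1) * b (d + 1) - 2 * b j * b d := by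
  induction d using Nat.twoStepInduction with
  | zero => simp [b]
  | one => simp [b]
  | more d h1 h2 =>
    rw [show j + (d + 2) + 1 = (j + d + 1) + 2 by ring, b_add_two, h1,
      show j + d + 1 + 1 = j + (d + 1) + 1 by ring, h2, b_add_two d,
      show d + 2 + 1 = (d + 1) + 2 by ring, b_add_two (d + 1), b_add_two d]
    ring

theorem b_sq_le (n : ℕ) : 7 * b n ^ 2 ≤ 4 * 2 ^ n := by
  have h := b_norm n
  nlinarith [sq_nonneg (2 * b (n + 1) - b n)]

/-- the normalised square -/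
noncomputable def m (n : ℕ) : ℝ := (b n : ℝ) ^ 2 / 2 ^ n

theorem m_mul (n : ℕ) : m n * 2 ^ n = (b n : ℝ) ^ 2 := by
  unfold m
  field_simp

theorem m_pos (n : ℕ) (hn : 1 ≤ n) : 0 < m n := by
  unfold m
  have : (b n : ℝ) ≠ 0 := by exact_mod_cast b_ne_zero n hn
  positivity

theorem b_normR (n : ℕ) :
    (b (n + 1) : ℝ) ^ 2 - b (n + 1) * b n + 2 * (b n : ℝ) ^ 2 = 2 ^ n := by
  exact_mod_cast b_norm n

/-- Two places `j`, `j + d` cannot both be very good approximations. -/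
theorem m_gap (D j d : ℕ) (hd1 : 1 ≤ d) (hdD : d ≤ D)
    (h1 : m j ≤ 1 / (16 * 2 ^ D)) : 1 / (16 * 2 ^ D) < m (j + d) := by
  by_contra hcon
  rw [not_lt] at hcon
  obtain ⟨c, rfl⟩ : ∃ c, d = c + 1 := ⟨d - 1, by omega⟩
  set δ : ℝ := 1 / (16 * 2 ^ D) with hδ
  have hδ0 : 0 < δ := by positivity
  have h2j : (0 : ℝ) < 2 ^ j := by positivity
  have hδD : δ * 2 ^ D = 1 / 16 := by
    rw [hδ]; field_simp
  have hδ10 : δ ≤ 1 / 16 := by
    rw [← hδD]
    have : (1 : ℝ) ≤ 2 ^ D := one_le_pow₀ (by norm_num)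
    nlinarith
  have hbj : (b j : ℝ) ^ 2 ≤ δ * 2 ^ j := by
    rw [← m_mul]; exact mul_le_mul_of_nonneg_right h1 h2j.le
  have hbjd : (b (j + (c + 1)) : ℝ) ^ 2 ≤ δ * 2 ^ (j + (c + 1)) := by
    rw [← m_mul]; exact mul_le_mul_of_nonneg_right hcon (by positivity)
  have hn := b_normR j
  have hb1 : (2 : ℝ) ^ j / 2 ≤ (b (j + 1) : ℝ) ^ 2 := by
    have hx : (b (j + 1) : ℝ) * b j ≤ ((b (j + 1) : ℝ) ^ 2 + (b j : ℝ) ^ 2) / 2 := by
      nlinarith [sq_nonneg ((b (j + 1) : ℝ) - b j)]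
    have hx' : -((b (j + 1) : ℝ) * b j) ≤ ((b (j + 1) : ℝ) ^ 2 + (b j : ℝ) ^ 2) / 2 := by
      nlinarith [sq_nonneg ((b (j + 1) : ℝ) + b j)]
    nlinarith
  have hadd : (b (j + (c + 1)) : ℝ) = b (j + 1) * b (c + 1) - 2 * b j * b c := by
    have := b_add j c
    rw [show j + (c + 1) = j + c + 1 by ring, this]
    push_cast
    ring
  have hc : (7 : ℝ) * (b c : ℝ) ^ 2 ≤ 4 * 2 ^ c := by exact_mod_cast b_sq_le c
  have hc1 : (1 : ℝ) ≤ (b (c + 1) : ℝ) ^ 2 := by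
    have h : b (c + 1) ≠ 0 := b_ne_zero _ (by omega)
    have h' : 1 ≤ b (c + 1) ^ 2 := by
      have := sq_pos_of_ne_zero h  
      omega
    exact_mod_cast h'
  have hcD : (2 : ℝ) ^ (c + 1) ≤ 2 ^ D := pow_le_pow_right₀ (by norm_num) hdD
  -- b(j+1)^2 b(c+1)^2 ≤ 2 b(j+c+1)^2 + 8 b j^2 b c^2
  have hmain : (b (j + 1) : ℝ) ^ 2 * (b (c + 1) : ℝ) ^ 2 ≤
      2 * (b (j + (c + 1)) : ℝ) ^ 2 + 8 * ((b j : ℝ) ^ 2 * (b c : ℝ) ^ 2) := by
    rw [hadd]
    nlinarith [sq_nonneg ((b (j + 1) : ℝ) * b (c + 1) - 4 * b j * b c)]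
  have hlow : (2 : ℝ) ^ j / 2 ≤ (b (j + 1) : ℝ) ^ 2 * (b (c + 1) : ℝ) ^ 2 := by
    nlinarith [sq_nonneg (b (j + 1) : ℝ)]
  have hup1 : (b (j + (c + 1)) : ℝ) ^ 2 ≤ 2 ^ j / 16 := by
    refine hbjd.trans ?_
    rw [pow_add]
    calc δ * (2 ^ j * 2 ^ (c + 1)) = 2 ^ j * (δ * 2 ^ (c + 1)) := by ring
      _ ≤ 2 ^ j * (δ * 2 ^ D) := by gcongr
      _ = 2 ^ j / 16 := by rw [hδD]; ring
  have hup2 : (b j : ℝ) ^ 2 * (b c : ℝ) ^ 2 ≤ 2 ^ j / 32 := by
    have h3 : (b c : ℝ) ^ 2 ≤ 2 ^ c := by nlinarith [sq_nonneg (b c : ℝ)]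
    calc (b j : ℝ) ^ 2 * (b c : ℝ) ^ 2 ≤ (δ * 2 ^ j) * 2 ^ c := by gcongr
      _ = 2 ^ j * (δ * 2 ^ (c + 1)) / 2 := by rw [pow_succ]; ring
      _ ≤ 2 ^ j * (δ * 2 ^ D) / 2 := by gcongr
      _ = 2 ^ j / 32 := by rw [hδD]; ring
  linarith

/-- the angle -/
noncomputable def θ : ℝ := Real.arccos (√2 / 4)

theorem cos_θ : Real.cos θ = √2 / 4 := by
  unfold θ
  apply Real.cos_arccos
  · have := Real.sqrt_nonneg 2
    linarith
  · have : √2 ≤ 2 := by
      rw [Real.sqrt_le_left (by norm_num)]; norm_num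
    linarith

/-- `√2^n sin(nθ)` satisfies the recurrence. -/
noncomputable def s (n : ℕ) : ℝ := √2 ^ n * Real.sin (n * θ)

theorem s_add_two (n : ℕ) : s (n + 2) = s (n + 1) - 2 * s n := by
  unfold s
  have h2 : √2 * √2 = 2 := Real.mul_self_sqrt (by norm_num)
  have e1 : ((n + 2 : ℕ) : ℝ) * θ = ((n + 1 : ℕ) : ℝ) * θ + θ := by push_cast; ring
  have e0 : ((n : ℕ) : ℝ) * θ = ((n + 1 : ℕ) : ℝ) * θ - θ := by push_cast; ring
  rw [e1, e0, Real.sin_add, Real.sin_sub, cos_θ, pow_add, pow_add]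
  have : √2 ^ 2 = 2 := by rw [sq, h2]
  rw [this]
  ring

theorem s_eq (n : ℕ) : s n = b n * s 1 := by
  induction n using Nat.twoStepInduction with
  | zero => simp [s, b]
  | one => simp [b]
  | more n h1 h2 =>
    rw [s_add_two, h1, h2, b_add_two]
    push_cast
    ring

theorem s_one_sq : s 1 ^ 2 = 7 / 4 := by
  have h := Real.sin_sq_add_cos_sq θ
  rw [cos_θ] at h
  have h2 : √2 ^ 2 = 2 := Real.sq_sqrt (by norm_num)
  unfold s
  simp only [pow_one, Nat.cast_one, one_mul]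
  rw [mul_pow, h2]
  nlinarith

theorem m_le_sin (n : ℕ) : m n ≤ Real.sin (n * θ) ^ 2 := by
  have h := s_eq n
  have h1 : (b n : ℝ) ^ 2 * (7 / 4) = 2 ^ n * Real.sin (n * θ) ^ 2 := by
    rw [← s_one_sq, ← mul_pow, ← h]
    unfold s
    rw [mul_pow, ← pow_mul, mul_comm n 2, pow_mul, Real.sq_sqrt (by norm_num)]
  unfold m
  rw [div_le_iff₀ (by positivity)]
  nlinarith [sq_nonneg (b n : ℝ)]

theorem exists_m_lt (ε : ℝ) (hε : 0 < ε) : ∃ n, 1 ≤ n ∧ m n < ε := by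
  obtain ⟨N, hN⟩ := exists_nat_gt (Real.pi ^ 2 / ε)
  obtain ⟨k, hk0, hkn, hk⟩ := Real.exists_nat_abs_mul_sub_round_le (θ / Real.pi)
    (Nat.succ_pos N)
  refine ⟨k, hk0, (m_le_sin k).trans_lt ?_⟩
  have hpi := Real.pi_pos
  set r := round ((k : ℝ) * (θ / Real.pi)) with hr
  have hsin : Real.sin (k * θ) ^ 2 = Real.sin (k * θ - r * Real.pi) ^ 2 := by
    rw [Real.sin_sub_int_mul_pi, mul_pow]
    have : (((-1 : ℝ) ^ r)) ^ 2 = 1 := by
      rcases Int.even_or_odd r with h | h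
      · rw [h.neg_one_zpow]; norm_num
      · rw [h.neg_one_zpow]; norm_num
    rw [this, one_mul]
  have hx : (k : ℝ) * θ - r * Real.pi = ((k : ℝ) * (θ / Real.pi) - r) * Real.pi := by
    field_simp
  have habs : |Real.sin (k * θ - r * Real.pi)| ≤ Real.pi / (N + 1 + 1) := by
    refine (Real.abs_sin_le_abs).trans ?_
    rw [hx, abs_mul, abs_of_pos hpi]
    have : |(k : ℝ) * (θ / Real.pi) - r| ≤ 1 / (((N.succ : ℕ) : ℝ) + 1) := hk
    calc |(k : ℝ) * (θ / Real.pi) - r| * Real.pi ≤ (1 / (((N.succ : ℕ) : ℝ) + 1)) * Real.pi := by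
          gcongr
      _ = Real.pi / (N + 1 + 1) := by push_cast; ring
  rw [hsin, ← sq_abs]
  have hN0 : (0 : ℝ) ≤ N := Nat.cast_nonneg N
  calc |Real.sin (k * θ - r * Real.pi)| ^ 2 ≤ (Real.pi / (N + 1 + 1)) ^ 2 := by gcongr
    _ = Real.pi ^ 2 / (N + 1 + 1) ^ 2 := by rw [div_pow]
    _ < ε := by
      rw [div_lt_iff₀ (by positivity)]
      rw [div_lt_iff₀ hε] at hN
      nlinarith

/-- The running maximum. -/
noncomputable def R : ℕ → ℝ
  | 0 => -8
  | (n + 1) => max (R n) (8 - 28 * m (n + 1))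

theorem R_succ (n : ℕ) : R (n + 1) = max (R n) (8 - 28 * m (n + 1)) := rfl

theorem R_mono : Monotone R := monotone_nat_of_le_succ fun n => by
  rw [R_succ]; exact le_max_left _ _

theorem R_lt (n : ℕ) : R n < 8 := by
  induction n with
  | zero => norm_num [R]
  | succ n ih =>
    rw [R_succ]
    have := m_pos (n + 1) (by omega)
    exact max_lt ih (by linarith)

theorem R_ge (n : ℕ) (hn : 1 ≤ n) : 8 - 28 * m n ≤ R n := by
  obtain ⟨k, rfl⟩ : ∃ k, n = k + 1 := ⟨n - 1, by omega⟩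
  rw [R_succ]; exact le_max_right _ _

theorem exists_R_gt (y : ℝ) (hy : y < 8) : ∃ n, y < R n := by
  obtain ⟨n, hn, h⟩ := exists_m_lt ((8 - y) / 28) (by linarith)
  refine ⟨n, lt_of_lt_of_le ?_ (R_ge n hn)⟩
  rw [lt_div_iff₀ (by norm_num)] at h
  linarith

/-- Windows of constancy with values close to `8`. -/
theorem exists_window (D : ℕ) (y : ℝ) (hy : y < 8) :
    ∃ n, 1 ≤ n ∧ y < R n ∧ ∀ d ≤ D, R (n + d) = R n := by
  set δ : ℝ := 1 / (16 * 2 ^ D) with hδ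
  have hδ0 : 0 < δ := by positivity
  obtain ⟨n₁, hn₁⟩ := exists_R_gt (max y (8 - 28 * δ)) (max_lt hy (by linarith))
  have hex : ∃ j, R n₁ < R j := exists_R_gt _ (R_lt n₁)
  classical
  let j := Nat.find hex
  have hj : R n₁ < R j := Nat.find_spec hex
  have hjmin : ∀ i < j, R i ≤ R n₁ := fun i hi => not_lt.1 (Nat.find_min hex hi)
  have hj1 : 1 ≤ j := by
    by_contra h0
    have h00 : j = 0 := by omega
    rw [h00] at hj
    exact absurd (R_mono (Nat.zero_le n₁)) (not_le.2 hj)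
  obtain ⟨i, hi⟩ : ∃ i, j = i + 1 := ⟨j - 1, by omega⟩
  have hRj : R j = 8 - 28 * m j := by
    have h1 : R i ≤ R n₁ := hjmin i (by omega)
    have h2 := R_succ i
    rw [← hi] at h2
    rcases max_choice (R i) (8 - 28 * m j) with h | h
    · rw [h] at h2
      rw [h2] at hj
      exact absurd h1 (not_le.2 hj)
    · rw [h] at h2
      exact h2
  have hRy : max y (8 - 28 * δ) < R j := hn₁.trans hj
  have hmj : m j < δ := by
    have := (le_max_right y (8 - 28 * δ)).trans_lt hRy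
    rw [hRj] at this
    linarith
  refine ⟨j, hj1, (le_max_left _ _).trans_lt hRy, fun d hd => ?_⟩
  induction d with
  | zero => rfl
  | succ d ih =>
    rw [← add_assoc, R_succ, ih (by omega)]
    apply max_eq_left
    have hg := m_gap D j (d + 1) (by omega) hd hmj.le
    rw [← add_assoc] at hg
    have := (le_max_right y (8 - 28 * δ)).trans_lt hRy
    linarith

/-- The set of values of `R` on windows of length `D` is infinite. -/
theorem infinite_values (D : ℕ) :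
    {e : ℝ | ∃ n, 1 ≤ n ∧ R n = e ∧ ∀ d ≤ D, R (n + d) = R n}.Infinite := by
  intro hfin
  set S := {e : ℝ | ∃ n, 1 ≤ n ∧ R n = e ∧ ∀ d ≤ D, R (n + d) = R n} with hS
  have hne : S.Nonempty := by
    obtain ⟨n, hn, -, h⟩ := exists_window D 0 (by norm_num)
    exact ⟨R n, n, hn, rfl, h⟩
  obtain ⟨e, he, hmax⟩ := hfin.exists_maximalFor id S hne
  obtain ⟨n, hn, rfl, h⟩ := he
  obtain ⟨n', hn', hlt, h'⟩ := exists_window D (R n) (R_lt n)
  have h1 : R n' ∈ S := ⟨n', hn', rfl, h'⟩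
  have := hmax h1 hlt.le
  exact absurd this (not_le.2 hlt)

/-- The degree sequence of the monomial part. -/
def x : ℕ → ℕ
  | 0 => 1
  | 1 => 1
  | 2 => 1
  | (n + 3) => 5 * x (n + 1) + 12 * x n

theorem x_add_three (n : ℕ) : x (n + 3) = 5 * x (n + 1) + 12 * x n := rfl

/-- The key identity between the two sequences. -/
theorem x_b (n : ℕ) :
    (x (n + 2) : ℤ) + 2 * x (n + 1) - 15 * x n = 4 * (2 ^ (n + 2) - 7 * b (n + 1) ^ 2) := by
  induction n using Nat.twoStepInduction with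
  | zero => simp [x, b]
  | one => norm_num [x, b]
  | more n h1 h2 =>
    have e1 : (x (n + 2 + 2) : ℤ) = 5 * x (n + 2) + 12 * x (n + 1) := by
      rw [show n + 2 + 2 = (n + 1) + 3 by ring, x_add_three]; push_cast; ring
    have e2 : (x (n + 2 + 1) : ℤ) = 5 * x (n + 1) + 12 * x n := by
      rw [show n + 2 + 1 = n + 3 by ring, x_add_three]; push_cast; ring
    have e3 : (x (n + 1 + 2) : ℤ) = 5 * x (n + 1) + 12 * x n := by
      rw [show n + 1 + 2 = n + 3 by ring, x_add_three]; push_cast; ring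
    have e4 : b (n + 2 + 1) = b (n + 2) - 2 * b (n + 1) := by
      rw [show n + 2 + 1 = (n + 1) + 2 by ring, b_add_two]
    have hn := b_norm (n + 1)
    rw [show n + 1 + 1 = n + 2 by ring] at *
    rw [e1, e2, e4]
    rw [e3] at h2
    have p1 : (2 : ℤ) ^ (n + 2 + 2) = 8 * 2 ^ (n + 1) := by ring
    have p2 : (2 : ℤ) ^ (n + 1 + 2) = 4 * 2 ^ (n + 1) := by ring
    have p3 : (2 : ℤ) ^ (n + 2) = 2 * 2 ^ (n + 1) := by ring
    rw [p1]
    rw [p2] at h2
    rw [p3] at h1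
    linear_combination (-4) * h1 + (-3) * h2 + 112 * hn

/-- The degree sequence of the example. -/
def e : ℕ → ℕ
  | 0 => 1
  | (n + 1) => max (2 * e n + (36 * x n + 3 * x (n + 1)))
      (21 * x n + 17 * x (n + 1) + 7 * x (n + 2))

theorem e_succ (n : ℕ) : e (n + 1) = max (2 * e n + (36 * x n + 3 * x (n + 1)))
      (21 * x n + 17 * x (n + 1) + 7 * x (n + 2)) := rfl

theorem e_eq (n : ℕ) : (e n : ℝ) = 6 * x (n + 1) + 3 * x (n + 2) + 2 ^ n * R n := by
  induction n with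
  | zero => norm_num [e, x, R]
  | succ n ih =>
    rw [e_succ, R_succ]
    push_cast
    have hx3 : (x (n + 1 + 2) : ℝ) = 5 * x (n + 1) + 12 * x n := by
      rw [show n + 1 + 2 = n + 3 by ring, x_add_three]; push_cast; ring
    have hxb : (x (n + 2) : ℝ) + 2 * x (n + 1) - 15 * x n =
        4 * (2 ^ (n + 2) - 7 * (b (n + 1) : ℝ) ^ 2) := by
      have := x_b n
      exact_mod_cast this
    have hm := m_mul (n + 1)
    rw [mul_max_of_nonneg _ _ (by positivity : (0 : ℝ) ≤ 2 ^ (n + 1)), ← max_add_add_left, hx3, ih,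
      show n + 1 + 1 = n + 2 by ring]
    congr 1
    · rw [pow_succ]; ring
    · have p : (2 : ℝ) ^ (n + 2) = 2 * 2 ^ (n + 1) := by ring
      rw [p] at hxb
      linear_combination hxb + 28 * hm

/-- There are no ties in the maximum. -/
theorem no_tie (n : ℕ) : 2 * e n + (36 * x n + 3 * x (n + 1)) ≠
    21 * x n + 17 * x (n + 1) + 7 * x (n + 2) := by
  have hx3 : ∀ n, (x (n + 1 + 2) : ℤ) = 5 * x (n + 1) + 12 * x n := by
    intro n
    rw [show n + 1 + 2 = n + 3 by ring, x_add_three]; push_cast; ring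
  have hdvd : ∀ n, (4 : ℤ) ∣ (e n : ℤ) - (6 * x (n + 1) + 3 * x (n + 2)) := by
    intro n
    induction n with
    | zero => norm_num [e, x]
    | succ n ih =>
      have hxb := x_b n
      rw [e_succ, hx3, show n + 1 + 1 = n + 2 by ring]
      push_cast
      rcases max_choice ((2 : ℤ) * e n + (36 * x n + 3 * x (n + 1)))
        (21 * x n + 17 * x (n + 1) + 7 * x (n + 2)) with h | h
      · rw [h]
        obtain ⟨c, hc⟩ := ih
        exact ⟨2 * c, by linear_combination 2 * hc⟩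
      · rw [h]
        exact ⟨2 ^ (n + 2) - 7 * b (n + 1) ^ 2, by linear_combination hxb⟩
  intro h
  have hz : (2 : ℤ) * e n + (36 * x n + 3 * x (n + 1)) =
    21 * x n + 17 * x (n + 1) + 7 * x (n + 2) := by exact_mod_cast h
  have hxb := x_b n
  obtain ⟨c, hc⟩ := hdvd n
  have h1 : 2 * c = 2 ^ (n + 2) - 7 * b (n + 1) ^ 2 := by
    have : 4 * (2 * c) = 4 * (2 ^ (n + 2) - 7 * b (n + 1) ^ 2) := by
      linear_combination (-2) * hc + hz + hxb
    linarith
  have hodd := b_odd n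
  have h2 : (b (n + 1) ^ 2) % 2 = 1 := by
    rw [pow_two, Int.mul_emod, hodd]; norm_num
  have h3 : (2 : ℤ) ^ (n + 2) = 2 * 2 ^ (n + 1) := by ring
  rw [h3] at h1
  omega

end H923R2.DegNT
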