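import Mathlib

/-!
Linear recurrences: an integer-like sequence that agrees with `e * a n + s n` on long windows for
infinitely many values of `e` is not given by finitely many linear recurrences.
-/

namespace H923R2.DegRec

open scoped Pointwise

/-- The shift of sequences. -/
def shift (a : ℕ → ℂ) : ℕ → ℂ := fun n => a (n + 1)

/-- A finitely generated shift-invariant space of sequences. -/
def Good (V : Submodule ℂ (ℕ → ℂ)) : Prop := V.FG ∧ ∀ v ∈ V, shift v ∈ V

theorem good_sup {V W : Submodule ℂ (ℕ → ℂ)} (hV : Good V) (hW : Good W) : Good (V ⊔ W) := by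
  refine ⟨hV.1.sup hW.1, fun v hv => ?_⟩
  obtain ⟨x, hx, y, hy, rfl⟩ := Submodule.mem_sup.1 hv
  exact Submodule.mem_sup.2 ⟨shift x, hV.2 x hx, shift y, hW.2 y hy, rfl⟩

theorem good_mul {V W : Submodule ℂ (ℕ → ℂ)} (hV : Good V) (hW : Good W) : Good (V * W) := by
  refine ⟨hV.1.mul hW.1, fun v hv => ?_⟩
  refine Submodule.mul_induction_on hv (fun x hx y hy => ?_) (fun x y hx hy => ?_)
  · exact Submodule.mul_mem_mul (hV.2 x hx) (hW.2 y hy)
  · exact Submodule.add_mem _ hx hy

theorem good_one : Good (1 : Submodule ℂ (ℕ → ℂ)) := by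
  refine ⟨?_, fun v hv => ?_⟩
  · rw [Submodule.one_eq_span]
    exact Submodule.fg_span_singleton _
  · rw [Submodule.one_eq_span, Submodule.mem_span_singleton] at hv ⊢
    obtain ⟨c, rfl⟩ := hv
    exact ⟨c, rfl⟩

/-- The span of a geometric sequence. -/
theorem good_geom (q : ℂ) : Good (Submodule.span ℂ {fun n : ℕ => q ^ n}) := by
  refine ⟨Submodule.fg_span_singleton _, fun v hv => ?_⟩
  rw [Submodule.mem_span_singleton] at hv ⊢
  obtain ⟨c, rfl⟩ := hv
  refine ⟨c * q, ?_⟩
  funext n
  simp only [shift, Pi.smul_apply, smul_eq_mul, pow_succ]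
  ring

/-- A sequence satisfying a linear recurrence (for all `n`) is in a good space. -/
theorem good_of_rec (L : ℕ → ℂ) (k : ℕ) (c : Fin k → ℂ)
    (h : ∀ n, L (n + k) = ∑ i : Fin k, c i * L (n + i)) :
    ∃ V, Good V ∧ L ∈ V := by
  let g : ℕ → (ℕ → ℂ) := fun i => fun n => L (n + i)
  by_cases hk : k = 0
  · subst hk
    refine ⟨⊥, ⟨Submodule.fg_bot, ?_⟩, ?_⟩
    · intro v hv
      rw [Submodule.mem_bot] at hv ⊢
      subst hv
      rfl
    · rw [Submodule.mem_bot]
      funext n
      simpa using h n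
  · refine ⟨Submodule.span ℂ (Set.range fun i : Fin k => g i), ⟨?_, ?_⟩, ?_⟩
    · exact Submodule.fg_span (Set.finite_range _)
    · intro v hv
      induction hv using Submodule.span_induction with
      | mem x hx =>
        obtain ⟨i, rfl⟩ := hx
        have hsh : shift (g i) = g (i + 1) := by
          funext n
          simp only [shift, g]
          congr 1
          ring
        rw [hsh]
        by_cases hi : (i : ℕ) + 1 < k
        · exact Submodule.subset_span ⟨⟨i + 1, hi⟩, rfl⟩
        · have hik : (i : ℕ) + 1 = k := by omega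
          rw [hik]
          have : g k = ∑ j : Fin k, c j • g j := by
            funext n
            simp only [g, Finset.sum_apply, Pi.smul_apply, smul_eq_mul]
            exact h n
          rw [this]
          exact Submodule.sum_mem _ fun j _ =>
            Submodule.smul_mem _ _ (Submodule.subset_span ⟨j, rfl⟩)
      | zero => exact Submodule.zero_mem _
      | add x y _ _ hx hy => exact Submodule.add_mem _ hx hy
      | smul a x _ hx => exact Submodule.smul_mem _ a hx
    · exact Submodule.subset_span ⟨⟨0, Nat.pos_of_ne_zero hk⟩, by simp [g]⟩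

/-- The shift on a good space, as an endomorphism. -/
noncomputable def shiftEnd (V : Submodule ℂ (ℕ → ℂ)) (hV : ∀ v ∈ V, shift v ∈ V) :
    V →ₗ[ℂ] V where
  toFun v := ⟨shift v, hV v v.2⟩
  map_add' x y := by ext n; rfl
  map_smul' a x := by ext n; rfl

theorem shiftEnd_pow_apply (V : Submodule ℂ (ℕ → ℂ)) (hV : ∀ v ∈ V, shift v ∈ V) (v : V)
    (k n : ℕ) : (((shiftEnd V hV ^ k) v : V) : ℕ → ℂ) n = (v : ℕ → ℂ) (n + k) := by
  induction k generalizing n with
  | zero => simp
  | succ k ih =>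
    rw [pow_succ']
    change (((shiftEnd V hV ^ k) v : V) : ℕ → ℂ) (n + 1) = _
    rw [ih, show n + 1 + k = n + (k + 1) by ring]

/-- In a good space there is a length `D` such that vanishing on `D` consecutive places implies
vanishing from there on. -/
theorem exists_window (V : Submodule ℂ (ℕ → ℂ)) (hV : Good V) :
    ∃ D : ℕ, ∀ v ∈ V, ∀ n₀ : ℕ, (∀ d < D, v (n₀ + d) = 0) → ∀ n ≥ n₀, v n = 0 := by
  have : Module.Finite ℂ V := Module.Finite.iff_fg.2 hV.1
  let T := shiftEnd V hV.2
  obtain ⟨p, hp, hp0⟩ := LinearMap.exists_monic_and_aeval_eq_zero ℂ T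
  refine ⟨p.natDegree, fun v hv n₀ h0 n hn => ?_⟩
  have key : ∀ n, ∑ i ∈ Finset.range (p.natDegree + 1), p.coeff i * v (n + i) = 0 := by
    intro n
    have h1 : (Polynomial.aeval T p) ⟨v, hv⟩ = 0 := by rw [hp0]; rfl
    rw [Polynomial.aeval_eq_sum_range] at h1
    have h2 := congrArg (fun w : V => (w : ℕ → ℂ) n) h1
    simp only [LinearMap.sum_apply, LinearMap.smul_apply, Submodule.coe_sum, Submodule.coe_smul,
      Finset.sum_apply, Pi.smul_apply, smul_eq_mul, T, shiftEnd_pow_apply] at h2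
    simpa using h2
  obtain ⟨m, rfl⟩ := Nat.exists_eq_add_of_le hn
  clear hn
  induction m using Nat.strong_induction_on with
  | _ m ih =>
    by_cases hm : m < p.natDegree
    · exact h0 m hm
    · have hk := key (n₀ + (m - p.natDegree))
      rw [Finset.sum_range_succ, Finset.sum_eq_zero] at hk
      · rw [hp.coeff_natDegree, one_mul, zero_add] at hk
        rw [show n₀ + m = n₀ + (m - p.natDegree) + p.natDegree by omega]
        exact hk
      · intro i hi
        rw [Finset.mem_range] at hi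
        rw [show n₀ + (m - p.natDegree) + i = n₀ + (m - p.natDegree + i) by ring,
          ih (m - p.natDegree + i) (by omega), mul_zero]

/-- Products of affine expressions in `e` with coefficients in good spaces lie in a good space
independent of `e`. -/
theorem exists_good_prod {r : ℕ} (a : ℕ → ℂ) (b : Fin r → ℕ → ℂ)
    (ha : ∃ V, Good V ∧ a ∈ V) (hb : ∀ i, ∃ V, Good V ∧ b i ∈ V) (s : Finset (Fin r)) :
    ∃ W, Good W ∧ ∀ e : ℂ, (∏ i ∈ s, (e • a + b i)) ∈ W := by
  induction s using Finset.induction_on with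
  | empty => exact ⟨1, good_one, fun e => by simp [Submodule.one_le.1 le_rfl]⟩
  | insert i s hi ih =>
    obtain ⟨W, hW, hWe⟩ := ih
    obtain ⟨V₁, hV₁, h1⟩ := ha
    obtain ⟨V₂, hV₂, h2⟩ := hb i
    refine ⟨(V₁ ⊔ V₂) * W, good_mul (good_sup hV₁ hV₂) hW, fun e => ?_⟩
    rw [Finset.prod_insert hi]
    refine Submodule.mul_mem_mul ?_ (hWe e)
    exact Submodule.add_mem_sup (Submodule.smul_mem _ _ h1) h2

/-- Main recurrence lemma. -/
theorem not_finitely_many (r : ℕ) (E a s : ℕ → ℂ) (L : Fin r → ℕ → ℂ) (ι : ℕ → Fin r)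
    (ha0 : ∀ n, a n ≠ 0)
    (ha : ∃ V, Good V ∧ a ∈ V) (hs : ∃ V, Good V ∧ s ∈ V) (hL : ∀ i, ∃ V, Good V ∧ L i ∈ V)
    (hE : ∀ n, E n = L (ι n) n)
    (hwin : ∀ D : ℕ, {e : ℂ | ∃ n₀, ∀ d < D, E (n₀ + d) = e * a (n₀ + d) + s (n₀ + d)}.Infinite) :
    False := by
  have hb : ∀ i, ∃ V, Good V ∧ (s - L i) ∈ V := by
    intro i
    obtain ⟨V₁, hV₁, h1⟩ := hs
    obtain ⟨V₂, hV₂, h2⟩ := hL i
    refine ⟨V₁ ⊔ V₂, good_sup hV₁ hV₂, ?_⟩
    exact Submodule.sub_mem _ (Submodule.mem_sup_left h1) (Submodule.mem_sup_right h2)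
  obtain ⟨W, hW, hWe⟩ := exists_good_prod a (fun i => s - L i) ha hb Finset.univ
  obtain ⟨D, hD⟩ := exists_window W hW
  set S := {e : ℂ | ∃ n₀, ∀ d < D, E (n₀ + d) = e * a (n₀ + d) + s (n₀ + d)} with hS
  have hSinf : S.Infinite := hwin D
  have hev : ∀ e ∈ S, ∃ n₀, ∀ n ≥ n₀, ∃ i, e * a n + s n = L i n := by
    rintro e ⟨n₀, hn₀⟩
    refine ⟨n₀, fun n hn => ?_⟩
    have h0 := hD _ (hWe e) n₀ (fun d hd => by
      rw [Finset.prod_apply]
      refine Finset.prod_eq_zero (Finset.mem_univ (ι (n₀ + d))) ?_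
      simp only [Pi.add_apply, Pi.smul_apply, smul_eq_mul, Pi.sub_apply]
      have := hn₀ d hd
      rw [hE] at this
      rw [this]
      ring) n hn
    rw [Finset.prod_apply, Finset.prod_eq_zero_iff] at h0
    obtain ⟨i, -, hi⟩ := h0
    refine ⟨i, ?_⟩
    simp only [Pi.add_apply, Pi.smul_apply, smul_eq_mul, Pi.sub_apply] at hi
    linear_combination hi
  obtain ⟨F, hFS, hFc⟩ := hSinf.exists_subset_card_eq (r + 1)
  choose! n₀ hn₀ using hev
  let n := F.sup n₀
  have hn : ∀ e ∈ F, ∃ i, e * a n + s n = L i n := fun e he =>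
    hn₀ e (hFS he) n (Finset.le_sup (f := n₀) he)
  have : Nonempty (Fin r) := ⟨ι 0⟩
  choose! idx hidx using hn
  have hinj : Set.InjOn idx F := by
    intro e he e' he' hee
    have h1 := hidx e he
    have h2 := hidx e' he'
    rw [hee, ← h2] at h1
    have h3 : e * a n = e' * a n := by linear_combination h1
    exact mul_right_cancel₀ (ha0 n) h3
  have hcard := Finset.card_le_card_of_injOn idx (fun e _ => Finset.mem_univ (idx e)) hinj
  rw [hFc, Finset.card_univ, Fintype.card_fin] at hcard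
  omega

end H923R2.DegRec
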