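import Mathlib
import Pool.Agent.H923R2.DegNT
import Pool.Agent.H923R2.DegRec

/-!
Rational self-maps of projective space, their iterates and degree sequences, and the example.
-/

namespace H923R2.DegMap

open MvPolynomial

/-- A rational self-map of `ℙ^N`: homogeneous polynomials of one common degree without a
nonconstant common factor. -/
structure RatMap (K : Type*) [Field K] (N : ℕ) where
  /-- the coordinates -/
  poly : Fin (N + 1) → MvPolynomial (Fin (N + 1)) K
  /-- the common degree -/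
  degree : ℕ
  homogeneous : ∀ i, (poly i).IsHomogeneous degree
  reduced : ∀ p : MvPolynomial (Fin (N + 1)) K, (∀ i, p ∣ poly i) → IsUnit p

variable {K : Type*} [Field K] {N : ℕ}

/-- The coordinates satisfy no nontrivial polynomial relation. -/
def RatMap.Dominant (f : RatMap K N) : Prop := AlgebraicIndependent K f.poly

/-- The `n`-fold composition computed by substitution (common factors are kept). -/
noncomputable def RatMap.subst (f : RatMap K N) : ℕ → Fin (N + 1) → MvPolynomial (Fin (N + 1)) K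
  | 0 => X
  | (n + 1) => fun i => bind₁ (f.subst n) (f.poly i)

/-- `g` is the `n`-th iterate of `f`: it is obtained from the `n`-fold substitution by dividing
out a common factor. -/
def RatMap.IsIterate (f : RatMap K N) (n : ℕ) (g : RatMap K N) : Prop :=
  ∃ c : MvPolynomial (Fin (N + 1)) K, c ≠ 0 ∧ ∀ i, f.subst n i = c * g.poly i

/-- `e n = deg (f^n)` for all `n ≥ 1`: the `n`-th iterate exists, and its degree is `e n`. -/
def RatMap.IsDegreeSequence (f : RatMap K N) (e : ℕ → ℕ) : Prop :=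
  ∀ n, 1 ≤ n → (∃ g, f.IsIterate n g) ∧ ∀ g, f.IsIterate n g → g.degree = e n

/-- A constant-coefficient linear recurrence sequence `(L_n)_{n ≥ 1}` of complex numbers. -/
def IsLinRec (L : ℕ → ℂ) : Prop :=
  ∃ k : ℕ, 1 ≤ k ∧ ∃ c : Fin k → ℂ, ∀ n, 1 ≤ n → L (n + k) = ∑ i : Fin k, c i * L (n + i)

/-- The sequence is given by finitely many linear recurrences. -/
def FinitelyManyRec (e : ℕ → ℕ) : Prop :=
  ∃ (r : ℕ) (L : Fin r → ℕ → ℂ) (ι : ℕ → Fin r),
    (∀ i, IsLinRec (L i)) ∧ ∀ n, 1 ≤ n → (e n : ℂ) = L (ι n) n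

/-! ### Uniqueness of the degree of an iterate -/

theorem RatMap.exists_ne_zero (g : RatMap K N) : ∃ i, g.poly i ≠ 0 := by
  by_contra h
  push Not at h
  have := g.reduced 0 (fun i => by rw [h i])
  exact not_isUnit_zero this

theorem RatMap.degree_unique (g g' : RatMap K N) (c c' : MvPolynomial (Fin (N + 1)) K)
    (hc : c ≠ 0) (h : ∀ i, c * g.poly i = c' * g'.poly i) : g.degree = g'.degree := by
  obtain ⟨a, b, d, hab, ha, hb⟩ := UniqueFactorizationMonoid.exists_reduced_factors c hc c'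
  have hd : d ≠ 0 := by
    rintro rfl
    exact hc (by rw [← ha, zero_mul])
  have h1 : ∀ i, a * g.poly i = b * g'.poly i := by
    intro i
    have := h i
    rw [← ha, ← hb, mul_assoc, mul_assoc] at this
    exact mul_left_cancel₀ hd this
  have hbu : IsUnit b := g.reduced b fun i => by
    have : b ∣ a * g.poly i := ⟨_, h1 i⟩
    exact (hab.symm).dvd_of_dvd_mul_left this
  have hau : IsUnit a := g'.reduced a fun i => by
    have : a ∣ b * g'.poly i := ⟨_, (h1 i).symm⟩
    exact hab.dvd_of_dvd_mul_left this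
  obtain ⟨i, hi⟩ := g.exists_ne_zero
  obtain ⟨u, hu, rfl⟩ := MvPolynomial.isUnit_iff_eq_C_of_isReduced.1 hau
  obtain ⟨w, hw, rfl⟩ := MvPolynomial.isUnit_iff_eq_C_of_isReduced.1 hbu
  have e1 : (C u * g.poly i).IsHomogeneous g.degree := by
    simpa using (isHomogeneous_C (Fin (N + 1)) u).mul (g.homogeneous i)
  have e2 : (C u * g.poly i).IsHomogeneous g'.degree := by
    rw [h1 i]
    simpa using (isHomogeneous_C (Fin (N + 1)) w).mul (g'.homogeneous i)
  exact e1.inj_right e2 (mul_ne_zero (by simpa using hu.ne_zero) hi)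

/-! ### The example -/

section Example

variable (K) (M : ℕ)

/-- the indices `0, …, 4` -/
def i0 : Fin (M + 4 + 1) := ⟨0, by omega⟩
/-- index 1 -/
def i1 : Fin (M + 4 + 1) := ⟨1, by omega⟩
/-- index 2 -/
def i2 : Fin (M + 4 + 1) := ⟨2, by omega⟩
/-- index 3 -/
def i3 : Fin (M + 4 + 1) := ⟨3, by omega⟩
/-- index 4 -/
def i4 : Fin (M + 4 + 1) := ⟨4, by omega⟩

/-- helper to define functions on the index set -/
def mk {α : Type*} (a0 a1 a2 a3 a4 : α) (a : Fin (M + 4 + 1) → α) (i : Fin (M + 4 + 1)) : α :=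
  if i.val = 0 then a0 else if i.val = 1 then a1 else if i.val = 2 then a2
  else if i.val = 3 then a3 else if i.val = 4 then a4 else a i

variable {M}

theorem cases_idx (i : Fin (M + 4 + 1)) :
    i = i0 M ∨ i = i1 M ∨ i = i2 M ∨ i = i3 M ∨ i = i4 M ∨ 5 ≤ i.val := by
  simp only [i0, i1, i2, i3, i4, Fin.ext_iff]
  omega

section mk

variable {α : Type*} (a0 a1 a2 a3 a4 : α) (a : Fin (M + 4 + 1) → α)

@[simp] theorem mk_0 : mk M a0 a1 a2 a3 a4 a (i0 M) = a0 := by simp [mk, i0]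
@[simp] theorem mk_1 : mk M a0 a1 a2 a3 a4 a (i1 M) = a1 := by simp [mk, i1]
@[simp] theorem mk_2 : mk M a0 a1 a2 a3 a4 a (i2 M) = a2 := by simp [mk, i2]
@[simp] theorem mk_3 : mk M a0 a1 a2 a3 a4 a (i3 M) = a3 := by simp [mk, i3]
@[simp] theorem mk_4 : mk M a0 a1 a2 a3 a4 a (i4 M) = a4 := by simp [mk, i4]
theorem mk_5 (i : Fin (M + 4 + 1)) (hi : 5 ≤ i.val) : mk M a0 a1 a2 a3 a4 a i = a i := by
  unfold mk
  rw [if_neg (by omega), if_neg (by omega), if_neg (by omega), if_neg (by omega),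
    if_neg (by omega)]

end mk

variable (M)

/-- The coordinates of the example. -/
noncomputable def F : Fin (M + 4 + 1) → MvPolynomial (Fin (M + 4 + 1)) K :=
  mk M (X (i0 M) ^ 45) (X (i0 M) ^ 44 * X (i2 M)) (X (i0 M) ^ 44 * X (i3 M))
    (X (i0 M) ^ 28 * X (i1 M) ^ 12 * X (i2 M) ^ 5)
    (X (i0 M) ^ 4 * X (i1 M) ^ 36 * X (i2 M) ^ 3 * X (i4 M) ^ 2 +
      X (i1 M) ^ 21 * X (i2 M) ^ 17 * X (i3 M) ^ 7)
    (fun i => X (i0 M) ^ 44 * X i)

variable {M} {K}

theorem hom_X (i : Fin (M + 4 + 1)) : (X i : MvPolynomial (Fin (M + 4 + 1)) K).IsHomogeneous 1 :=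
  isHomogeneous_X _ _

theorem hom_Xpow (i : Fin (M + 4 + 1)) (k : ℕ) :
    (X i ^ k : MvPolynomial (Fin (M + 4 + 1)) K).IsHomogeneous k := by
  simpa using (hom_X i).pow k

theorem F_hom (i : Fin (M + 4 + 1)) : (F K M i).IsHomogeneous 45 := by
  unfold F
  rcases cases_idx i with rfl | rfl | rfl | rfl | rfl | hi
  · rw [mk_0]; exact hom_Xpow _ _
  · rw [mk_1]; exact (hom_Xpow _ 44).mul (hom_X _)
  · rw [mk_2]; exact (hom_Xpow _ 44).mul (hom_X _)
  · rw [mk_3]; exact ((hom_Xpow _ 28).mul (hom_Xpow _ 12)).mul (hom_Xpow _ 5)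
  · rw [mk_4]
    exact ((((hom_Xpow _ 4).mul (hom_Xpow _ 36)).mul (hom_Xpow _ 3)).mul (hom_Xpow _ 2)).add
      (((hom_Xpow _ 21).mul (hom_Xpow _ 17)).mul (hom_Xpow _ 7))
  · rw [mk_5 _ _ _ _ _ _ _ hi]; exact (hom_Xpow _ 44).mul (hom_X _)

variable (M) (K)

/-- The evaluation `X₀ ↦ 0`, all other variables to `1`. -/
noncomputable def φ : MvPolynomial (Fin (M + 4 + 1)) K →ₐ[K] K :=
  aeval (fun i : Fin (M + 4 + 1) => if i.val = 0 then (0 : K) else 1)

@[simp] theorem φ0 : φ K M (X (i0 M)) = 0 := by simp [φ, i0]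
@[simp] theorem φ1 : φ K M (X (i1 M)) = 1 := by simp [φ, i1]
@[simp] theorem φ2 : φ K M (X (i2 M)) = 1 := by simp [φ, i2]
@[simp] theorem φ3 : φ K M (X (i3 M)) = 1 := by simp [φ, i3]
@[simp] theorem φ4 : φ K M (X (i4 M)) = 1 := by simp [φ, i4]

/-- A tuple containing a power of `X₀` and a polynomial with `φ = 1` is reduced. -/
theorem isUnit_of_dvd (p q : MvPolynomial (Fin (M + 4 + 1)) K) (k : ℕ)
    (h0 : p ∣ X (i0 M) ^ k) (h1 : p ∣ q) (hq : φ K M q = 1) : IsUnit p := by
  have hprime : Prime (X (i0 M) : MvPolynomial (Fin (M + 4 + 1)) K) := MvPolynomial.X_prime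
  obtain ⟨l, hl, hass⟩ := (dvd_prime_pow hprime k).1 h0
  rcases Nat.eq_zero_or_pos l with rfl | hlpos
  · rw [pow_zero] at hass
    exact (associated_one_iff_isUnit).1 hass
  · exfalso
    have hX : (X (i0 M) : MvPolynomial (Fin (M + 4 + 1)) K) ∣ q :=
      ((dvd_pow_self _ hlpos.ne').trans hass.symm.dvd).trans h1
    obtain ⟨s, hs⟩ := hX
    rw [hs, map_mul, φ0, zero_mul] at hq
    exact zero_ne_one hq

/-- The example as a rational map. -/
noncomputable def f : RatMap K (M + 4) where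
  poly := F K M
  degree := 45
  homogeneous := F_hom
  reduced := fun p hp => by
    have h0 := hp (i0 M)
    have h4 := hp (i4 M)
    simp only [F, mk_0] at h0
    simp only [F, mk_4] at h4
    refine isUnit_of_dvd K M p _ 45 h0 h4 ?_
    simp

/-- The monomials. -/
noncomputable def p : ℕ → MvPolynomial (Fin (M + 4 + 1)) K
  | 0 => X (i1 M)
  | 1 => X (i2 M)
  | 2 => X (i3 M)
  | (n + 3) => p n ^ 12 * p (n + 1) ^ 5

open DegNT

/-- The last coordinate of the reduced iterate. -/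
noncomputable def H : ℕ → MvPolynomial (Fin (M + 4 + 1)) K
  | 0 => X (i4 M)
  | (n + 1) => X (i0 M) ^ (e (n + 1) - (2 * e n + (36 * x n + 3 * x (n + 1)))) *
        p K M n ^ 36 * p K M (n + 1) ^ 3 * H n ^ 2 +
      X (i0 M) ^ (e (n + 1) - (21 * x n + 17 * x (n + 1) + 7 * x (n + 2))) *
        p K M n ^ 21 * p K M (n + 1) ^ 17 * p K M (n + 2) ^ 7

theorem p_hom (n : ℕ) : (p K M n).IsHomogeneous (x n) := by
  induction n using Nat.strong_induction_on with
  | _ n ih =>
    match n with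
    | 0 => exact hom_X (i1 M)
    | 1 => exact hom_X (i2 M)
    | 2 => exact hom_X (i3 M)
    | (n + 3) =>
      have h1 := (ih n (by omega)).pow 12
      have h2 := (ih (n + 1) (by omega)).pow 5
      have h := h1.mul h2
      rw [x_add_three, p]
      convert h using 1
      ring

theorem p_φ (n : ℕ) : φ K M (p K M n) = 1 := by
  induction n using Nat.strong_induction_on with
  | _ n ih =>
    match n with
    | 0 => simp [p]
    | 1 => simp [p]
    | 2 => simp [p]
    | (n + 3) => simp [p, ih n (by omega), ih (n + 1) (by omega)]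

theorem bounds (n : ℕ) : x n ≤ e n ∧ x (n + 1) ≤ e n ∧ x (n + 2) ≤ e n ∧ 1 ≤ e n ∧
    e n ≤ 45 ^ n := by
  induction n with
  | zero => simp [x, e]
  | succ n ih =>
    obtain ⟨h1, h2, h3, h4, h5⟩ := ih
    have hB : 21 * x n + 17 * x (n + 1) + 7 * x (n + 2) ≤ e (n + 1) := by
      rw [e_succ]; exact le_max_right _ _
    have hA : 2 * e n + (36 * x n + 3 * x (n + 1)) ≤ e (n + 1) := by
      rw [e_succ]; exact le_max_left _ _
    refine ⟨by omega, by rw [show n + 1 + 1 = n + 2 by ring]; omega, ?_, by omega, ?_⟩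
    · rw [show n + 1 + 2 = n + 3 by ring, x_add_three]; omega
    · rw [e_succ, pow_succ]
      apply max_le <;> omega

theorem e_ge_A (n : ℕ) : 2 * e n + (36 * x n + 3 * x (n + 1)) ≤ e (n + 1) := by
  rw [e_succ]; exact le_max_left _ _

theorem e_ge_B (n : ℕ) : 21 * x n + 17 * x (n + 1) + 7 * x (n + 2) ≤ e (n + 1) := by
  rw [e_succ]; exact le_max_right _ _

theorem H_hom (n : ℕ) : (H K M n).IsHomogeneous (e n) := by
  induction n with
  | zero => simpa [e, H] using (hom_X (i4 M) : (X (i4 M) : MvPolynomial _ K).IsHomogeneous 1)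
  | succ n ih =>
    rw [H]
    have hA := e_ge_A n
    have hB := e_ge_B n
    apply IsHomogeneous.add
    · have h := (((hom_Xpow (K := K) (i0 M)
        (e (n + 1) - (2 * e n + (36 * x n + 3 * x (n + 1))))).mul
        ((p_hom K M n).pow 36)).mul ((p_hom K M (n + 1)).pow 3)).mul (ih.pow 2)
      convert h using 1
      omega
    · have h := (((hom_Xpow (K := K) (i0 M)
        (e (n + 1) - (21 * x n + 17 * x (n + 1) + 7 * x (n + 2)))).mul
        ((p_hom K M n).pow 21)).mul ((p_hom K M (n + 1)).pow 17)).mul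
        ((p_hom K M (n + 2)).pow 7)
      convert h using 1
      omega

theorem H_φ (n : ℕ) : φ K M (H K M n) = 1 := by
  induction n with
  | zero => simp [H]
  | succ n ih =>
    rw [H]
    simp only [map_add, map_mul, map_pow, φ0, p_φ, ih, one_pow, mul_one]
    have hne := no_tie n
    rcases lt_or_gt_of_ne hne with h | h
    · have h1 : e (n + 1) = 21 * x n + 17 * x (n + 1) + 7 * x (n + 2) := by
        rw [e_succ]; exact max_eq_right h.le
      rw [h1, Nat.sub_self, pow_zero, zero_pow (by omega), zero_add]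
    · have h1 : e (n + 1) = 2 * e n + (36 * x n + 3 * x (n + 1)) := by
        rw [e_succ]; exact max_eq_left h.le
      rw [h1, Nat.sub_self, pow_zero, zero_pow (by omega), add_zero]

/-- The unreduced iterates. -/
theorem subst_eq (n : ℕ) : (f K M).subst n =
    mk M (X (i0 M) ^ (45 ^ n)) (X (i0 M) ^ (45 ^ n - x n) * p K M n)
      (X (i0 M) ^ (45 ^ n - x (n + 1)) * p K M (n + 1))
      (X (i0 M) ^ (45 ^ n - x (n + 2)) * p K M (n + 2))
      (X (i0 M) ^ (45 ^ n - e n) * H K M n)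
      (fun i => X (i0 M) ^ (45 ^ n - 1) * X i) := by
  induction n with
  | zero =>
    funext i
    rcases cases_idx i with rfl | rfl | rfl | rfl | rfl | hi
    · simp [RatMap.subst]
    · simp [RatMap.subst, p, x]
    · simp [RatMap.subst, p, x]
    · simp [RatMap.subst, p, x]
    · simp [RatMap.subst, H, e]
    · rw [mk_5 _ _ _ _ _ _ _ hi]; simp [RatMap.subst]
  | succ n ih =>
    obtain ⟨h1, h2, h3, h4, h5⟩ := bounds n
    obtain ⟨h1', h2', h3', h4', h5'⟩ := bounds (n + 1)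
    have hA := e_ge_A n
    have hB := e_ge_B n
    have hp : 45 ^ (n + 1) = 45 * 45 ^ n := by ring
    funext i
    rw [RatMap.subst, ih]
    rcases cases_idx i with rfl | rfl | rfl | rfl | rfl | hi
    · rw [mk_0]
      simp only [f, F, mk_0, map_pow, bind₁_X_right]
      rw [← pow_mul]
      congr 1
    · rw [mk_1]
      simp only [f, F, mk_1, map_mul, map_pow, bind₁_X_right, mk_0, mk_2]
      rw [← pow_mul, ← mul_assoc, ← pow_add, show n + 1 + 0 = n + 1 by ring]
      congr 2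
      omega
    · rw [mk_2]
      simp only [f, F, mk_2, map_mul, map_pow, bind₁_X_right, mk_0, mk_3]
      rw [← pow_mul, ← mul_assoc, ← pow_add, show n + 1 + 1 = n + 2 by ring]
      congr 2
      omega
    · rw [mk_3]
      simp only [f, F, mk_3, map_mul, map_pow, bind₁_X_right, mk_0, mk_1, mk_2, mul_pow]
      rw [show n + 1 + 2 = n + 3 by ring, p, x_add_three, ← pow_mul, ← pow_mul, ← pow_mul]
      have : 45 ^ (n + 1) - (5 * x (n + 1) + 12 * x n) =
          45 ^ n * 28 + (45 ^ n - x n) * 12 + (45 ^ n - x (n + 1)) * 5 := by omega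
      rw [this, pow_add, pow_add]
      ring
    · rw [mk_4]
      simp only [f, F, mk_4, map_add, map_mul, map_pow, bind₁_X_right, mk_0, mk_1, mk_2, mk_3,
        mul_pow]
      rw [H]
      simp only [← pow_mul]
      rw [mul_add]
      have c1 : 45 ^ n * 4 + (45 ^ n - x n) * 36 + (45 ^ n - x (n + 1)) * 3 +
          (45 ^ n - e n) * 2 = (45 ^ (n + 1) - e (n + 1)) +
          (e (n + 1) - (2 * e n + (36 * x n + 3 * x (n + 1)))) := by omega
      have c2 : (45 ^ n - x n) * 21 + (45 ^ n - x (n + 1)) * 17 +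
          (45 ^ n - x (n + 2)) * 7 = (45 ^ (n + 1) - e (n + 1)) +
          (e (n + 1) - (21 * x n + 17 * x (n + 1) + 7 * x (n + 2))) := by omega
      congr 1
      · calc _ = X (i0 M) ^ (45 ^ n * 4 + (45 ^ n - x n) * 36 + (45 ^ n - x (n + 1)) * 3 +
              (45 ^ n - e n) * 2) * (p K M n ^ 36 * p K M (n + 1) ^ 3 * H K M n ^ 2) := by
              simp only [pow_add]; ring
          _ = _ := by rw [c1, pow_add]; ring
      · calc _ = X (i0 M) ^ ((45 ^ n - x n) * 21 + (45 ^ n - x (n + 1)) * 17 +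
              (45 ^ n - x (n + 2)) * 7) *
              (p K M n ^ 21 * p K M (n + 1) ^ 17 * p K M (n + 2) ^ 7) := by
              simp only [pow_add]; ring
          _ = _ := by rw [c2, pow_add]; ring
    · rw [mk_5 _ _ _ _ _ _ _ hi]
      simp only [f, F]
      rw [mk_5 _ _ _ _ _ _ _ hi]
      simp only [map_mul, map_pow, bind₁_X_right, mk_0]
      rw [mk_5 _ _ _ _ _ _ _ hi, ← pow_mul, ← mul_assoc, ← pow_add]
      congr 2
      omega

/-- The reduced iterates. -/
noncomputable def g (n : ℕ) : RatMap K (M + 4) where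
  poly := mk M (X (i0 M) ^ (e n)) (X (i0 M) ^ (e n - x n) * p K M n)
      (X (i0 M) ^ (e n - x (n + 1)) * p K M (n + 1))
      (X (i0 M) ^ (e n - x (n + 2)) * p K M (n + 2))
      (H K M n)
      (fun i => X (i0 M) ^ (e n - 1) * X i)
  degree := e n
  homogeneous := fun i => by
    obtain ⟨h1, h2, h3, h4, h5⟩ := bounds n
    rcases cases_idx i with rfl | rfl | rfl | rfl | rfl | hi
    · rw [mk_0]; exact hom_Xpow _ _
    · rw [mk_1]
      have := (hom_Xpow (K := K) (i0 M) (e n - x n)).mul (p_hom K M n)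
      rwa [Nat.sub_add_cancel h1] at this
    · rw [mk_2]
      have := (hom_Xpow (K := K) (i0 M) (e n - x (n + 1))).mul (p_hom K M (n + 1))
      rwa [Nat.sub_add_cancel h2] at this
    · rw [mk_3]
      have := (hom_Xpow (K := K) (i0 M) (e n - x (n + 2))).mul (p_hom K M (n + 2))
      rwa [Nat.sub_add_cancel h3] at this
    · rw [mk_4]; exact H_hom K M n
    · rw [mk_5 _ _ _ _ _ _ _ hi]
      have := (hom_Xpow (K := K) (i0 M) (e n - 1)).mul (hom_X i)
      rwa [Nat.sub_add_cancel h4] at this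
  reduced := fun q hq => by
    have h0 := hq (i0 M)
    have h4 := hq (i4 M)
    rw [mk_0] at h0
    rw [mk_4] at h4
    exact isUnit_of_dvd K M q _ _ h0 h4 (H_φ K M n)

theorem isIterate_g (n : ℕ) : (f K M).IsIterate n (g K M n) := by
  obtain ⟨h1, h2, h3, h4, h5⟩ := bounds n
  refine ⟨X (i0 M) ^ (45 ^ n - e n), pow_ne_zero _ (X_ne_zero _), fun i => ?_⟩
  rw [subst_eq]
  unfold g
  dsimp only
  rcases cases_idx i with rfl | rfl | rfl | rfl | rfl | hi
  · rw [mk_0, mk_0, ← pow_add]; congr 1; omega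
  · rw [mk_1, mk_1, ← mul_assoc, ← pow_add]; congr 2; omega
  · rw [mk_2, mk_2, ← mul_assoc, ← pow_add]; congr 2; omega
  · rw [mk_3, mk_3, ← mul_assoc, ← pow_add]; congr 2; omega
  · rw [mk_4, mk_4]
  · rw [mk_5 _ _ _ _ _ _ _ hi, mk_5 _ _ _ _ _ _ _ hi, ← mul_assoc, ← pow_add]
    congr 2; omega

theorem isDegreeSequence : (f K M).IsDegreeSequence e := by
  intro n _
  refine ⟨⟨g K M n, isIterate_g K M n⟩, fun g' hg' => ?_⟩
  obtain ⟨c, hc, h⟩ := hg'
  obtain ⟨c', hc', h'⟩ := isIterate_g K M n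
  exact RatMap.degree_unique g' (g K M n) c c' hc (fun i => by rw [← h i, ← h' i])

theorem aux1 {L : Type*} [Field L] (a t : L) (ha : a ≠ 0) : a * (t / a) = t := by
  field_simp

theorem aux3 {L : Type*} [Field L] (a b t : L) (ha : a ≠ 0) (hb : b ≠ 0) :
    a * (t / (a * b)) * b = t := by
  field_simp

theorem aux4 {L : Type*} [Field L] (a t c : L) (ha : a ≠ 0) : a * ((t - c) / a) + c = t := by
  rw [aux1 a _ ha]; ring

/-- The example is dominant. -/
theorem dominant : (f K M).Dominant := by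
  unfold RatMap.Dominant
  rw [algebraicIndependent_iff]
  intro P hP
  let L := AlgebraicClosure (FractionRing (MvPolynomial (Fin (M + 4 + 1)) K))
  let T : Fin (M + 4 + 1) → L := fun i => algebraMap (MvPolynomial (Fin (M + 4 + 1)) K) L (X i)
  have hinj : Function.Injective (algebraMap (MvPolynomial (Fin (M + 4 + 1)) K) L) := by
    have h1 : Function.Injective (algebraMap (MvPolynomial (Fin (M + 4 + 1)) K)
      (FractionRing (MvPolynomial (Fin (M + 4 + 1)) K))) := IsFractionRing.injective _ _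
    have h2 : Function.Injective (algebraMap
      (FractionRing (MvPolynomial (Fin (M + 4 + 1)) K)) L) := RingHom.injective _
    rw [IsScalarTower.algebraMap_eq (MvPolynomial (Fin (M + 4 + 1)) K)
      (FractionRing (MvPolynomial (Fin (M + 4 + 1)) K)) L]
    exact h2.comp h1
  have hT : ∀ i, T i ≠ 0 := by
    intro i h
    have hX : (X i : MvPolynomial (Fin (M + 4 + 1)) K) ≠ 0 := X_ne_zero i
    exact hX (hinj (by rw [map_zero]; exact h))
  obtain ⟨x0, hx0⟩ := IsAlgClosed.exists_pow_nat_eq (T (i0 M)) (n := 45) (by norm_num)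
  have x0ne : x0 ≠ 0 := by rintro rfl; exact hT (i0 M) (by rw [← hx0]; norm_num)
  let x2 : L := T (i1 M) / x0 ^ 44
  have x2ne : x2 ≠ 0 := div_ne_zero (hT _) (pow_ne_zero _ x0ne)
  let x3 : L := T (i2 M) / x0 ^ 44
  obtain ⟨x1, hx1⟩ := IsAlgClosed.exists_pow_nat_eq (T (i3 M) / (x0 ^ 28 * x2 ^ 5)) (n := 12)
    (by norm_num)
  have x1ne : x1 ≠ 0 := by
    rintro rfl
    have h0 : T (i3 M) / (x0 ^ 28 * x2 ^ 5) ≠ 0 :=
      div_ne_zero (hT _) (mul_ne_zero (pow_ne_zero _ x0ne) (pow_ne_zero _ x2ne))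
    exact h0 (by rw [← hx1]; norm_num)
  obtain ⟨x4, hx4⟩ := IsAlgClosed.exists_pow_nat_eq
    ((T (i4 M) - x1 ^ 21 * x2 ^ 17 * x3 ^ 7) / (x0 ^ 4 * x1 ^ 36 * x2 ^ 3)) (n := 2)
    (by norm_num)
  let pt : Fin (M + 4 + 1) → L := mk M x0 x1 x2 x3 x4 (fun i => T i / x0 ^ 44)
  have hpt : ∀ i, aeval pt (F K M i) = T i := by
    intro i
    rcases cases_idx i with rfl | rfl | rfl | rfl | rfl | hi
    · simp only [F, mk_0, map_pow, aeval_X, pt]; exact hx0
    · simp only [F, mk_1, map_mul, map_pow, aeval_X, pt, mk_0, mk_2, x2]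
      exact aux1 _ _ (pow_ne_zero _ x0ne)
    · simp only [F, mk_2, map_mul, map_pow, aeval_X, pt, mk_0, mk_3, x3]
      exact aux1 _ _ (pow_ne_zero _ x0ne)
    · simp only [F, mk_3, map_mul, map_pow, aeval_X, pt, mk_0, mk_1, mk_2]
      rw [hx1]
      exact aux3 _ _ _ (pow_ne_zero _ x0ne) (pow_ne_zero _ x2ne)
    · simp only [F, mk_4, map_add, map_mul, map_pow, aeval_X, pt, mk_0, mk_1, mk_2, mk_3]
      rw [hx4]
      exact aux4 _ _ _ (mul_ne_zero (mul_ne_zero (pow_ne_zero _ x0ne) (pow_ne_zero _ x1ne))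
        (pow_ne_zero _ x2ne))
    · simp only [F]
      rw [mk_5 _ _ _ _ _ _ _ hi]
      simp only [map_mul, map_pow, aeval_X, pt, mk_0]
      rw [mk_5 _ _ _ _ _ _ _ hi]
      exact aux1 _ _ (pow_ne_zero _ x0ne)
  have h1 : aeval pt (aeval (F K M) P) = algebraMap (MvPolynomial (Fin (M + 4 + 1)) K) L P := by
    have hcomp : ((aeval pt).comp (aeval (F K M)) : MvPolynomial (Fin (M + 4 + 1)) K →ₐ[K] L) =
        IsScalarTower.toAlgHom K (MvPolynomial (Fin (M + 4 + 1)) K) L := by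
      apply MvPolynomial.algHom_ext
      intro i
      simp only [AlgHom.comp_apply, aeval_X]
      rw [hpt i]
      rfl
    exact DFunLike.congr_fun hcomp P
  apply hinj
  rw [← h1]
  have : aeval (F K M) P = 0 := hP
  rw [this, map_zero, map_zero]

end Example

/-! ### Recurrences -/

open DegRec

theorem good_of_isLinRec (L : ℕ → ℂ) (h : IsLinRec L) : ∃ V, Good V ∧ (fun n => L (n + 1)) ∈ V := by
  obtain ⟨k, _, c, hc⟩ := h
  refine good_of_rec _ k c (fun n => ?_)
  have := hc (n + 1) (by omega)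
  rw [show n + k + 1 = n + 1 + k by ring, this]
  refine Finset.sum_congr rfl fun i _ => ?_
  rw [show n + (i : ℕ) + 1 = n + 1 + i by ring]

theorem x_rec : ∃ V, Good V ∧ (fun n => ((DegNT.x n : ℕ) : ℂ)) ∈ V := by
  refine good_of_rec _ 3 ![12, 5, 0] (fun n => ?_)
  rw [DegNT.x_add_three, Fin.sum_univ_three]
  simp
  ring

theorem s_rec : ∃ V, Good V ∧
    (fun n => (6 * (DegNT.x (n + 2) : ℂ) + 3 * (DegNT.x (n + 3) : ℂ))) ∈ V := by
  obtain ⟨V, hV, hx⟩ := x_rec
  refine ⟨V, hV, ?_⟩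
  have h2 := hV.2 _ (hV.2 _ hx)
  have h3 := hV.2 _ h2
  have := Submodule.add_mem _ (Submodule.smul_mem V (6 : ℂ) h2) (Submodule.smul_mem V (3 : ℂ) h3)
  exact this

theorem not_finitelyManyRec : ¬ FinitelyManyRec DegNT.e := by
  rintro ⟨r, L, ι, hL, hE⟩
  refine not_finitely_many r (fun n => (DegNT.e (n + 1) : ℂ)) (fun n => (2 : ℂ) * 2 ^ n)
    (fun n => (6 * (DegNT.x (n + 2) : ℂ) + 3 * (DegNT.x (n + 3) : ℂ)))
    (fun i n => L i (n + 1)) (fun n => ι (n + 1)) (fun n => mul_ne_zero two_ne_zero (pow_ne_zero _ two_ne_zero)) ?_ s_rec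
    (fun i => good_of_isLinRec _ (hL i)) (fun n => hE (n + 1) (by omega)) ?_
  · refine ⟨_, good_geom 2, ?_⟩
    exact Submodule.smul_mem _ (2 : ℂ) (Submodule.mem_span_singleton_self _)
  · intro D
    have hinf := DegNT.infinite_values D
    have himg : (Complex.ofReal '' {e : ℝ | ∃ n, 1 ≤ n ∧ DegNT.R n = e ∧
        ∀ d ≤ D, DegNT.R (n + d) = DegNT.R n}).Infinite :=
      hinf.image (Complex.ofReal_injective.injOn)
    refine himg.mono ?_
    rintro _ ⟨y, ⟨n, hn, rfl, hd⟩, rfl⟩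
    refine ⟨n - 1, fun d hdD => ?_⟩
    have h1 : n - 1 + d + 1 = n + d := by omega
    have h2 := DegNT.e_eq (n + d)
    rw [hd d hdD.le] at h2
    have h3 : ((DegNT.e (n + d) : ℝ) : ℂ) = ((6 * DegNT.x (n + d + 1) + 3 * DegNT.x (n + d + 2) +
      2 ^ (n + d) * DegNT.R n : ℝ) : ℂ) := by rw [h2]
    push_cast at h3
    change ((DegNT.e (n - 1 + d + 1) : ℕ) : ℂ) = _
    rw [h1, h3, show n - 1 + d + 2 = n + d + 1 by omega, show n - 1 + d + 3 = n + d + 2 by omega]
    have h4 : (2 : ℂ) ^ (n + d) = 2 * 2 ^ (n - 1 + d) := by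
      rw [← pow_succ', h1]
    rw [h4]
    ring

theorem x_growth (n : ℕ) : DegNT.x n ≤ 3 ^ n ∧ 3 ^ n ≤ 9 * DegNT.x n := by
  induction n using Nat.strong_induction_on with
  | _ n ih =>
    match n with
    | 0 => simp [DegNT.x]
    | 1 => simp [DegNT.x]
    | 2 => simp [DegNT.x]
    | (n + 3) =>
      have h1 := ih n (by omega)
      have h2 := ih (n + 1) (by omega)
      rw [DegNT.x_add_three]
      have e1 : 3 ^ (n + 1) = 3 * 3 ^ n := by ring
      have e3 : 3 ^ (n + 3) = 27 * 3 ^ n := by ring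
      omega

theorem e_growth (n : ℕ) : 3 ^ n ≤ DegNT.e n ∧ DegNT.e n ≤ 53 * 3 ^ n := by
  constructor
  · have h := (bounds n).2.2.1
    have h2 := (x_growth (n + 2)).2
    have e1 : 3 ^ (n + 2) = 9 * 3 ^ n := by ring
    omega
  · have h := DegNT.e_eq n
    have h1 : (DegNT.x (n + 1) : ℝ) ≤ 3 * 3 ^ n := by
      have := (x_growth (n + 1)).1
      have e1 : 3 ^ (n + 1) = 3 * 3 ^ n := by ring
      rw [e1] at this
      exact_mod_cast this
    have h2 : (DegNT.x (n + 2) : ℝ) ≤ 9 * 3 ^ n := by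
      have := (x_growth (n + 2)).1
      have e1 : 3 ^ (n + 2) = 9 * 3 ^ n := by ring
      rw [e1] at this
      exact_mod_cast this
    have h3 : (2 : ℝ) ^ n ≤ 3 ^ n := pow_le_pow_left₀ (by norm_num) (by norm_num) n
    have h4 := DegNT.R_lt n
    have h5 : (2 : ℝ) ^ n * DegNT.R n ≤ 8 * 3 ^ n := by
      have h2n : (0 : ℝ) < 2 ^ n := by positivity
      nlinarith
    have : (DegNT.e n : ℝ) ≤ 53 * 3 ^ n := by
      rw [h]; linarith
    exact_mod_cast this

/-- Main theorem. -/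
theorem main (K : Type*) [Field K] (N : ℕ) (hN : 4 ≤ N) :
    ∃ f : RatMap K N, f.Dominant ∧ f.poly 0 = X 0 ^ f.degree ∧
      ∃ e : ℕ → ℕ, f.IsDegreeSequence e ∧ (∀ n, 3 ^ n ≤ e n ∧ e n ≤ 53 * 3 ^ n) ∧
        ¬ FinitelyManyRec e := by
  obtain ⟨M, rfl⟩ : ∃ M, N = M + 4 := ⟨N - 4, by omega⟩
  refine ⟨f K M, dominant K M, ?_, DegNT.e, isDegreeSequence K M, e_growth, not_finitelyManyRec⟩
  have h0 : (0 : Fin (M + 4 + 1)) = i0 M := rfl
  rw [h0]
  simp only [f, F, mk_0]

end H923R2.DegMap
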